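import Mathlib
import Pool.Agent.X199.Orbits

/-!
# The number of orbits of the space of continuous self-maps of `ω*`
-/

open Cardinal

namespace Pool.Agent.Results.MP_7279d0_gt.NumberOfOrbits

open Pool.Agent.X199.Kunen

/-- **Main theorem.** The space `C_k(ω*, ω*)` of all continuous maps `ω* → ω*` with the compact-open
topology has exactly `2 ^ 𝔠` orbits under the action of its group of autohomeomorphisms. -/
theorem result : #(Orbits C(Star, Star)) = 2 ^ continuum := mk_orbits

end Pool.Agent.Results.MP_7279d0_gt.NumberOfOrbits
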